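import Mathlib
import Pool.Agent.H15.ConvCyc

set_option autoImplicit false

namespace Pool.Agent.Results.MP_0f7a95_an.NotDense

/-- A complex Banach space and a bounded operator with a convex-cyclic vector whose set of
convex-cyclic vectors is not dense. -/
theorem result :
    ∃ (X : Type) (_ : NormedAddCommGroup X) (_ : NormedSpace ℂ X) (_ : CompleteSpace X)
      (T : X →L[ℂ] X),
      (∃ x : X, Dense (convexHull ℝ (Set.range fun n : ℕ => (T ^ n) x))) ∧
      ¬ Dense {x : X | Dense (convexHull ℝ (Set.range fun n : ℕ => (T ^ n) x))} :=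
  ⟨Pool.Agent.H15.ConvCyc.XA, inferInstance, inferInstance, inferInstance,
    Pool.Agent.H15.ConvCyc.T, ⟨1, Pool.Agent.H15.ConvCyc.cyc⟩, Pool.Agent.H15.ConvCyc.not_dense⟩

end Pool.Agent.Results.MP_0f7a95_an.NotDense
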